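import Pool.Agent.N290.RM.Stm
import Pool.Agent.N250.RK.R1

/-!
# Project RM (helper290), part RW: regular majorants of square Dini functions (helper195)
-/

set_option autoImplicit false

open Complex MeasureTheory Set Filter Topology
open scoped ENNReal

namespace Pool.Agent.N195.RM

open Pool.Agent.N290.RJ Pool.Agent.N290.RK Pool.Agent.N290.RM
open Pool.Agent.N250.RK

/-! ### change of variables -/

lemma cov (F : ℝ → ℝ≥0∞) (hF : Measurable F) :
    ∫⁻ t in Ioo (0 : ℝ) 1, F (2 * t) = 2⁻¹ * ∫⁻ s in Ioo (0 : ℝ) 2, F s := by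
  have h1 : Measure.map (fun t : ℝ => 2 * t) volume = ENNReal.ofReal |(2 : ℝ)⁻¹| • volume :=
    Real.map_volume_mul_left two_ne_zero
  have h2 : ∫⁻ s, (Ioo (0 : ℝ) 2).indicator F s ∂(Measure.map (fun t : ℝ => 2 * t) volume) =
      ∫⁻ t, (Ioo (0 : ℝ) 2).indicator F (2 * t) :=
    lintegral_map (hF.indicator measurableSet_Ioo) (measurable_const_mul 2)
  rw [h1, lintegral_smul_measure] at h2
  rw [← lintegral_indicator measurableSet_Ioo, ← lintegral_indicator measurableSet_Ioo]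
  have h3 : ∀ t, (Ioo (0 : ℝ) 1).indicator (fun t => F (2 * t)) t =
      (Ioo (0 : ℝ) 2).indicator F (2 * t) := by
    intro t
    by_cases ht : t ∈ Ioo (0 : ℝ) 1
    · rw [indicator_of_mem ht, indicator_of_mem]
      rw [mem_Ioo] at ht ⊢
      constructor <;> linarith
    · rw [indicator_of_notMem ht, indicator_of_notMem]
      intro h
      apply ht
      rw [mem_Ioo] at h ⊢
      constructor <;> linarith
  rw [lintegral_congr h3, ← h2]
  rw [smul_eq_mul]
  congr 1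
  rw [abs_of_pos (by norm_num), ENNReal.ofReal_inv_of_pos (by norm_num), ENNReal.ofReal_ofNat]

/-- the integral of `v (2^n t) / t` -/
noncomputable def I (v : ℝ → ℝ) (n : ℕ) : ℝ≥0∞ :=
  ∫⁻ t in Ioo (0 : ℝ) 1, ENNReal.ofReal (v (2 ^ n * t) / t)

variable {v : ℝ → ℝ}

lemma meas (hv : Monotone v) (n : ℕ) :
    Measurable fun s : ℝ => ENNReal.ofReal (v (2 ^ n * s) / s) :=
  ((hv.measurable.comp (measurable_const_mul _)).div measurable_id).ennreal_ofReal

lemma I_step (hv : Monotone v) (h1 : ∀ t, v t ≤ 1) (n : ℕ) : I v (n + 1) ≤ I v n + 1 := by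
  have e1 : I v (n + 1) = ∫⁻ s in Ioo (0 : ℝ) 2, ENNReal.ofReal (v (2 ^ n * s) / s) := by
    have h2 := cov (fun s => ENNReal.ofReal (v (2 ^ n * s) / s)) (meas hv n)
    have h3 : I v (n + 1) =
        ∫⁻ t in Ioo (0 : ℝ) 1, 2 * ENNReal.ofReal (v (2 ^ n * (2 * t)) / (2 * t)) := by
      unfold I
      refine setLIntegral_congr_fun measurableSet_Ioo fun t ht => ?_
      have h4 : v (2 ^ (n + 1) * t) / t = 2 * (v (2 ^ n * (2 * t)) / (2 * t)) := by
        have e : (2 : ℝ) ^ (n + 1) * t = 2 ^ n * (2 * t) := by rw [pow_succ]; ring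
        have ht0 : t ≠ 0 := ht.1.ne'
        rw [e]
        field_simp
      show ENNReal.ofReal (v (2 ^ (n + 1) * t) / t) = _
      rw [h4, ENNReal.ofReal_mul (by norm_num), ENNReal.ofReal_ofNat]
    rw [h3, lintegral_const_mul' _ _ (by norm_num), h2, ← mul_assoc,
      ENNReal.mul_inv_cancel (by norm_num) (by norm_num), one_mul]
  rw [e1]
  have hsub : Ioo (0 : ℝ) 2 ⊆ Ioo 0 1 ∪ Ico 1 2 := by
    intro s hs
    rcases lt_or_ge s 1 with h | h
    · exact Or.inl ⟨hs.1, h⟩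
    · exact Or.inr ⟨h, hs.2⟩
  refine (lintegral_mono_set hsub).trans ((lintegral_union_le _ _ _).trans ?_)
  refine add_le_add le_rfl ?_
  have h5 : ∫⁻ s in Ico (1 : ℝ) 2, ENNReal.ofReal (v (2 ^ n * s) / s) ≤
      ∫⁻ _s in Ico (1 : ℝ) 2, 1 := by
    refine setLIntegral_mono' measurableSet_Ico fun s hs => ?_
    rw [← ENNReal.ofReal_one]
    apply ENNReal.ofReal_le_ofReal
    have hs1 : (1 : ℝ) ≤ s := hs.1
    rw [div_le_one (by linarith)]
    exact (h1 _).trans hs1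
  refine h5.trans ?_
  rw [setLIntegral_one, Real.volume_Ico]
  norm_num

lemma I_le (hv : Monotone v) (h1 : ∀ t, v t ≤ 1) (n : ℕ) : I v n ≤ I v 0 + n := by
  induction n with
  | zero => simp
  | succ n ih =>
    refine (I_step hv h1 n).trans ?_
    push_cast
    rw [← add_assoc]
    exact add_le_add ih le_rfl

/-! ### the series -/

/-- the series -/
noncomputable def G (p : ℝ) (v : ℝ → ℝ) (t : ℝ) : ℝ := ∑' n : ℕ, p ^ n * v (2 ^ n * t)

lemma G_sum {p : ℝ} (hp0 : 0 < p) (hp1 : p < 1) (h0 : ∀ t, 0 ≤ v t) (h1 : ∀ t, v t ≤ 1) (t : ℝ) :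
    Summable fun n : ℕ => p ^ n * v (2 ^ n * t) := by
  refine Summable.of_nonneg_of_le (fun n => mul_nonneg (pow_nonneg hp0.le _) (h0 _)) (fun n => ?_)
    (summable_geometric_of_lt_one hp0.le hp1)
  exact mul_le_of_le_one_right (pow_nonneg hp0.le _) (h1 _)

lemma G_mono {p : ℝ} (hp0 : 0 < p) (hp1 : p < 1) (hv : Monotone v) (h0 : ∀ t, 0 ≤ v t)
    (h1 : ∀ t, v t ≤ 1) : Monotone (G p v) := by
  intro s t hst
  unfold G
  refine Summable.tsum_le_tsum (fun n => ?_) (G_sum hp0 hp1 h0 h1 s) (G_sum hp0 hp1 h0 h1 t)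
  refine mul_le_mul_of_nonneg_left (hv ?_) (pow_nonneg hp0.le _)
  exact mul_le_mul_of_nonneg_left hst (by positivity)

lemma G_ge {p : ℝ} (hp0 : 0 < p) (hp1 : p < 1) (h0 : ∀ t, 0 ≤ v t) (h1 : ∀ t, v t ≤ 1) (t : ℝ) :
    v t ≤ G p v t := by
  have h := (G_sum hp0 hp1 h0 h1 t).le_tsum 0 fun n _ => mul_nonneg (pow_nonneg hp0.le _) (h0 _)
  simpa [G] using h

lemma G_le {p : ℝ} (hp0 : 0 < p) (hp1 : p < 1) (h0 : ∀ t, 0 ≤ v t) (h1 : ∀ t, v t ≤ 1) (t : ℝ) :
    (1 - p) * G p v t ≤ 1 := by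
  have h : G p v t ≤ (1 - p)⁻¹ := by
    rw [← tsum_geometric_of_lt_one hp0.le hp1]
    refine Summable.tsum_le_tsum (fun n => ?_) (G_sum hp0 hp1 h0 h1 t)
      (summable_geometric_of_lt_one hp0.le hp1)
    exact mul_le_of_le_one_right (pow_nonneg hp0.le _) (h1 _)
  have hp : 0 < 1 - p := by linarith
  calc (1 - p) * G p v t ≤ (1 - p) * (1 - p)⁻¹ := mul_le_mul_of_nonneg_left h hp.le
    _ = 1 := mul_inv_cancel₀ hp.ne'

lemma G_step {p : ℝ} (hp0 : 0 < p) (hp1 : p < 1) (h0 : ∀ t, 0 ≤ v t) (h1 : ∀ t, v t ≤ 1) (t : ℝ) :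
    p * G p v (2 * t) ≤ G p v t := by
  have e : G p v t = v t + p * G p v (2 * t) := by
    unfold G
    rw [(G_sum hp0 hp1 h0 h1 t).tsum_eq_zero_add, ← tsum_mul_left]
    congr 1
    · simp
    · refine tsum_congr fun n => ?_
      rw [pow_succ, pow_succ, mul_assoc (2 ^ n)]
      ring
  have := h0 t
  linarith

lemma G_dini {p : ℝ} (hp0 : 0 < p) (hp1 : p < 1) (hv : Monotone v) (h0 : ∀ t, 0 ≤ v t)
    (h1 : ∀ t, v t ≤ 1) (hI : I v 0 < ⊤) :
    ∫⁻ t in Ioo (0 : ℝ) 1, ENNReal.ofReal (G p v t / t) < ⊤ := by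
  have e1 : ∫⁻ t in Ioo (0 : ℝ) 1, ENNReal.ofReal (G p v t / t) =
      ∑' n : ℕ, ENNReal.ofReal (p ^ n) * I v n := by
    have e2 : ∫⁻ t in Ioo (0 : ℝ) 1, ENNReal.ofReal (G p v t / t) =
        ∫⁻ t in Ioo (0 : ℝ) 1, ∑' n : ℕ, ENNReal.ofReal (p ^ n) *
          ENNReal.ofReal (v (2 ^ n * t) / t) := by
      refine setLIntegral_congr_fun measurableSet_Ioo fun t ht => ?_
      have ht0 : 0 < t := ht.1
      show ENNReal.ofReal (G p v t / t) = _
      have e3 : G p v t / t = ∑' n : ℕ, p ^ n * (v (2 ^ n * t) / t) := by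
        unfold G
        rw [← tsum_div_const]
        exact tsum_congr fun n => by rw [mul_div_assoc]
      rw [e3, ENNReal.ofReal_tsum_of_nonneg]
      · exact tsum_congr fun n => ENNReal.ofReal_mul (pow_nonneg hp0.le _)
      · exact fun n => mul_nonneg (pow_nonneg hp0.le _) (div_nonneg (h0 _) ht0.le)
      · have := (G_sum hp0 hp1 h0 h1 t).div_const t
        refine this.congr fun n => ?_
        rw [mul_div_assoc]
    rw [e2, lintegral_tsum fun n => ((meas hv n).const_mul _).aemeasurable]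
    refine tsum_congr fun n => ?_
    rw [lintegral_const_mul _ (meas hv n)]
    rfl
  rw [e1]
  have h2 : ∑' n : ℕ, ENNReal.ofReal (p ^ n) * I v n ≤
      ∑' n : ℕ, (ENNReal.ofReal (p ^ n) * I v 0 + ENNReal.ofReal (p ^ n * n)) := by
    refine ENNReal.tsum_le_tsum fun n => ?_
    refine (mul_le_mul_right (I_le hv h1 n) _).trans (le_of_eq ?_)
    rw [mul_add, ENNReal.ofReal_mul (pow_nonneg hp0.le _), ENNReal.ofReal_natCast]
  refine lt_of_le_of_lt h2 ?_
  rw [ENNReal.tsum_add, ENNReal.tsum_mul_right, ← ENNReal.ofReal_tsum_of_nonneg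
    (fun n => pow_nonneg hp0.le _) (summable_geometric_of_lt_one hp0.le hp1)]
  have h3 : Summable fun n : ℕ => p ^ n * (n : ℝ) := by
    have := summable_pow_mul_geometric_of_norm_lt_one (R := ℝ) 1 (r := p)
      (by rw [Real.norm_eq_abs, abs_of_pos hp0]; exact hp1)
    refine this.congr fun n => ?_
    rw [pow_one, mul_comm]
  rw [← ENNReal.ofReal_tsum_of_nonneg
    (fun n => mul_nonneg (pow_nonneg hp0.le _) (Nat.cast_nonneg _)) h3]
  exact ENNReal.add_lt_top.2 ⟨ENNReal.mul_lt_top ENNReal.ofReal_lt_top hI, ENNReal.ofReal_lt_top⟩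

/-! ### the proof -/

theorem RW_proof : Pool.Agent.N290.RM.RW := by
  intro ω hω
  obtain ⟨hm, hω0, hfin⟩ := hω
  obtain ⟨A, hA⟩ : ∃ A : ℝ, A = 1 + ω 1 ^ 2 := ⟨_, rfl⟩
  have hA1 : 1 ≤ A := by rw [hA]; nlinarith [sq_nonneg (ω 1)]
  have hA0 : 0 < A := by linarith
  obtain ⟨v, hvd⟩ : ∃ v : ℝ → ℝ, v = fun t => (ω (min t 1) ^ 2 + max (min t 1) 0) / A := ⟨_, rfl⟩
  have hv : Monotone v := by
    intro s t hst
    rw [hvd]
    have e1 : min s 1 ≤ min t 1 := min_le_min_right 1 hst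
    have e2 := hm e1
    have e3 : ω (min s 1) ^ 2 ≤ ω (min t 1) ^ 2 := pow_le_pow_left₀ (hω0 _) e2 2
    have e4 : max (min s 1) 0 ≤ max (min t 1) 0 := max_le_max_right 0 e1
    simp only
    gcongr
  have h0 : ∀ t, 0 ≤ v t := by
    intro t
    rw [hvd]
    have : 0 ≤ max (min t 1) 0 := le_max_right _ _
    simp only
    positivity
  have h1 : ∀ t, v t ≤ 1 := by
    intro t
    rw [hvd]
    simp only
    rw [div_le_one hA0, hA]
    have e1 : ω (min t 1) ^ 2 ≤ ω 1 ^ 2 := pow_le_pow_left₀ (hω0 _) (hm (min_le_right _ _)) 2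
    have e2 : max (min t 1) 0 ≤ 1 := max_le (min_le_right _ _) zero_le_one
    linarith
  have hvt : ∀ t, 0 < t → t ≤ 1 → v t = (ω t ^ 2 + t) / A := by
    intro t ht ht1
    rw [hvd]
    simp only
    rw [min_eq_left ht1, max_eq_left ht.le]
  have hvpos : ∀ t, 0 < t → 0 < v t := by
    intro t ht
    rw [hvd]
    simp only
    have e1 : 0 < max (min t 1) 0 := lt_max_of_lt_left (lt_min ht one_pos)
    positivity
  have hI : I v 0 < ⊤ := by
    have h2 : I v 0 ≤ ∫⁻ t in Ioo (0 : ℝ) 1, (ENNReal.ofReal (ω t ^ 2 / t) + 1) := by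
      unfold I
      refine setLIntegral_mono' measurableSet_Ioo fun t ht => ?_
      have ht0 : 0 < t := ht.1
      rw [pow_zero, one_mul, hvt t ht0 ht.2.le, ← ENNReal.ofReal_one,
        ← ENNReal.ofReal_add (by positivity) zero_le_one]
      apply ENNReal.ofReal_le_ofReal
      have e1 : (ω t ^ 2 + t) / A ≤ ω t ^ 2 + t := div_le_self (by positivity) hA1
      calc (ω t ^ 2 + t) / A / t ≤ (ω t ^ 2 + t) / t := by gcongr
        _ = ω t ^ 2 / t + 1 := by field_simp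
    refine lt_of_le_of_lt h2 ?_
    rw [lintegral_add_right _ measurable_const, setLIntegral_one, Real.volume_Ioo]
    exact ENNReal.add_lt_top.2 ⟨hfin, ENNReal.ofReal_lt_top⟩
  obtain ⟨p, hp⟩ : ∃ p : ℝ, p = (1024 / 1025) ^ 2 := ⟨_, rfl⟩
  have hp0 : 0 < p := by rw [hp]; norm_num
  have hp1 : p < 1 := by rw [hp]; norm_num
  have hq : 0 < 1 - p := by linarith
  have hGm := G_mono hp0 hp1 hv h0 h1
  have hG0 : ∀ t, 0 ≤ G p v t := fun t => (h0 t).trans (G_ge hp0 hp1 h0 h1 t)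
  obtain ⟨α₀, hα₀⟩ : ∃ α₀ : ℝ → ℝ, α₀ = fun t => √((1 - p) * G p v t) := ⟨_, rfl⟩
  have hm0 : Monotone α₀ := by
    intro s t hst
    rw [hα₀]
    exact Real.sqrt_le_sqrt (mul_le_mul_of_nonneg_left (hGm hst) hq.le)
  have hα0 : ∀ t, 0 ≤ α₀ t := by
    intro t
    rw [hα₀]
    exact Real.sqrt_nonneg _
  have hα1 : ∀ t, α₀ t ≤ 1 := by
    intro t
    rw [hα₀]
    simp only
    rw [Real.sqrt_le_one]
    exact G_le hp0 hp1 h0 h1 t
  have hαpos : ∀ t, 0 < t → 0 < α₀ t := by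
    intro t ht
    rw [hα₀]
    exact Real.sqrt_pos.2 (mul_pos hq (lt_of_lt_of_le (hvpos t ht) (G_ge hp0 hp1 h0 h1 t)))
  have hstep : ∀ t, α₀ (2 * t) ≤ 1025 / 1024 * α₀ t := by
    intro t
    rw [hα₀]
    simp only
    have e1 : (1025 / 1024 : ℝ) = √((1025 / 1024) ^ 2) := (Real.sqrt_sq (by norm_num)).symm
    rw [e1, ← Real.sqrt_mul (by positivity)]
    apply Real.sqrt_le_sqrt
    have h2 := G_step hp0 hp1 h0 h1 t
    rw [hp] at h2
    have h3 : G p v (2 * t) ≤ (1025 / 1024) ^ 2 * G p v t := by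
      rw [← hp] at h2
      rw [hp] at h2
      rw [hp]
      nlinarith
    nlinarith
  -- first average
  obtain ⟨w, hw⟩ : ∃ w : ℝ → ℝ, w = av α₀ := ⟨_, rfl⟩
  have hwm : Monotone w := by rw [hw]; exact av_mono hm0
  have hwc : ContinuousOn w (Ioi 0) := by rw [hw]; exact av_cont hm0
  have hwstep : ∀ t, w (2 * t) ≤ 1025 / 1024 * w t := by
    intro t
    rw [hw]
    unfold av
    rw [← intervalIntegral.integral_const_mul]
    refine intervalIntegral.integral_mono_on (by norm_num) (comp_int hm0 _ _ _)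
      ((comp_int hm0 t _ _).const_mul _) fun s hs => ?_
    rw [mul_assoc]
    exact hstep _
  have hw1 : ∀ t, 0 ≤ t → α₀ t ≤ w t := fun t ht => by rw [hw]; exact av_lower hm0 t ht
  have hw2 : ∀ t, 0 ≤ t → w t ≤ α₀ (2 * t) := fun t ht => by rw [hw]; exact av_upper hm0 t ht
  have ha1 : ∀ t, 0 ≤ t → w t ≤ av w t := av_lower hwm
  have ha2 : ∀ t, 0 ≤ t → av w t ≤ w (2 * t) := av_upper hwm
  have hdom : ∀ t, 0 < t → av w t ≤ (1025 / 1024) ^ 2 * α₀ t := by
    intro t ht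
    have e1 := ha2 t ht.le
    have e2 := hw2 (2 * t) (by linarith)
    have e3 := hstep (2 * t)
    have e4 := hstep t
    linarith
  refine ⟨av w, √(A / (1 - p)), Real.sqrt_pos.2 (by positivity), av_c1 hwm hwc,
    fun s t _ h => av_mono hwm h, ?_, ?_, ?_⟩
  · intro t ht ht1
    have e1 := ha1 t ht.le
    have e2 := hw1 t ht.le
    have e3 := hαpos t ht
    refine ⟨by linarith, ?_, ?_⟩
    · exact (ha2 t ht.le).trans ((hw2 _ (by linarith)).trans (hα1 _))
    · have e4 : ω t ≤ √(A / (1 - p)) * α₀ t := by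
        rw [hα₀]
        simp only
        rw [← Real.sqrt_mul (by positivity)]
        apply Real.le_sqrt_of_sq_le
        have e5 : A / (1 - p) * ((1 - p) * G p v t) = A * G p v t := by
          field_simp
        rw [e5]
        have e6 := G_ge hp0 hp1 h0 h1 t
        rw [hvt t ht ht1, div_le_iff₀ hA0] at e6
        linarith
      refine e4.trans (mul_le_mul_of_nonneg_left (e2.trans e1) (Real.sqrt_nonneg _))
  · intro t ht ht1
    rw [(av_deriv hwm hwc t ht).deriv, ← mul_assoc, mul_inv_cancel₀ ht.ne', one_mul]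
    have e1 := ha1 t ht.le
    have e2 := ha2 t ht.le
    have e3 := hwstep t
    have e4 : w t ≤ w (2 * t) := hwm (by linarith)
    constructor
    · linarith
    · linarith
  · have h2 : ∫⁻ t in Ioo (0 : ℝ) 1, ENNReal.ofReal (av w t ^ 2 / t) ≤
        ∫⁻ t in Ioo (0 : ℝ) 1, ENNReal.ofReal ((1025 / 1024) ^ 4 * (1 - p)) *
          ENNReal.ofReal (G p v t / t) := by
      refine setLIntegral_mono' measurableSet_Ioo fun t ht => ?_
      have ht0 : 0 < t := ht.1
      rw [← ENNReal.ofReal_mul (by positivity)]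
      apply ENNReal.ofReal_le_ofReal
      have e1 := hdom t ht0
      have e2 : 0 ≤ av w t := (hα0 t).trans ((hw1 t ht0.le).trans (ha1 t ht0.le))
      have e3 : av w t ^ 2 ≤ ((1025 / 1024) ^ 2 * α₀ t) ^ 2 := pow_le_pow_left₀ e2 e1 2
      have e4 : α₀ t ^ 2 = (1 - p) * G p v t := by
        rw [hα₀]
        exact Real.sq_sqrt (mul_nonneg hq.le (hG0 t))
      rw [mul_pow, e4] at e3
      calc av w t ^ 2 / t ≤ (((1025 / 1024) ^ 2) ^ 2 * ((1 - p) * G p v t)) / t := by gcongr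
        _ = (1025 / 1024) ^ 4 * (1 - p) * (G p v t / t) := by ring
    refine (lt_of_le_of_lt h2 ?_).ne
    rw [lintegral_const_mul' _ _ ENNReal.ofReal_ne_top]
    exact ENNReal.mul_lt_top ENNReal.ofReal_lt_top (G_dini hp0 hp1 hv h0 h1 hI)

end Pool.Agent.N195.RM
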